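import Mathlib

/-!
# Definitions for MP_77ae25_co

Holes, thetas, prisms, (theta, prism)-free graphs and induced minors of simple graphs.
-/

namespace Pool.Agent.Lib.MP_77ae25_co

variable {V : Type*} {W : Type*}

/-- The set `T` of vertices induces a hole of `G`: the subgraph of `G` induced by `T` is a cycle of
length at least `4`. -/
def InducesHole (G : SimpleGraph V) (T : Set V) : Prop :=
  ∃ n : ℕ, 4 ≤ n ∧ Nonempty (G.induce T ≃g SimpleGraph.cycleGraph n)

/-- `G` is a theta: it is made of two non-adjacent vertices `a`, `b` and three internally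
vertex-disjoint `a`-`b` paths, each of length at least `2`, such that the union of the vertex sets of
any two of them induces a hole. -/
def IsTheta (G : SimpleGraph V) : Prop :=
  ∃ (a b : V) (P : Fin 3 → G.Walk a b),
    a ≠ b ∧ ¬ G.Adj a b ∧
    (∀ i, (P i).IsPath ∧ 2 ≤ (P i).length) ∧
    (∀ i j, i ≠ j → ∀ v, v ∈ (P i).support → v ∈ (P j).support → v = a ∨ v = b) ∧
    (∀ i j, i ≠ j → InducesHole G {v | v ∈ (P i).support ∨ v ∈ (P j).support}) ∧
    (∀ v, ∃ i, v ∈ (P i).support)

/-- `G` is a prism: it is made of two vertex-disjoint triangles `a 0, a 1, a 2` and `b 0, b 1, b 2`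
and three vertex-disjoint paths, the `i`-th one joining `a i` to `b i`, such that the union of the
vertex sets of any two of them induces a hole. -/
def IsPrism (G : SimpleGraph V) : Prop :=
  ∃ (a b : Fin 3 → V) (P : ∀ i, G.Walk (a i) (b i)),
    (∀ i j, i ≠ j → G.Adj (a i) (a j)) ∧ (∀ i j, i ≠ j → G.Adj (b i) (b j)) ∧
    (∀ i j, a i ≠ b j) ∧
    (∀ i, (P i).IsPath) ∧
    (∀ i j, i ≠ j → ∀ v, v ∈ (P i).support → v ∉ (P j).support) ∧
    (∀ i j, i ≠ j → InducesHole G {v | v ∈ (P i).support ∨ v ∈ (P j).support}) ∧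
    (∀ v, ∃ i, v ∈ (P i).support)

/-- `G` is (theta, prism)-free: no induced subgraph of `G` is a theta or a prism. -/
def ThetaPrismFree (G : SimpleGraph V) : Prop :=
  ∀ S : Set V, ¬ IsTheta (G.induce S) ∧ ¬ IsPrism (G.induce S)

/-- Contraction of the edge `u v` of `G`: the vertex `v` is merged into `u` (so `u` becomes adjacent
to all neighbours of `v`; loops and parallel edges are discarded). The vertex `v` itself is
removed from the vertex set in `Step.contract` below. -/
def contractEdge (G : SimpleGraph V) (u v : V) : SimpleGraph V where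
  Adj x y := x ≠ y ∧ (G.Adj x y ∨ (x = u ∧ G.Adj v y) ∨ (y = u ∧ G.Adj x v))
  symm := ⟨by
    rintro x y ⟨h1, h2⟩
    refine ⟨h1.symm, ?_⟩
    rcases h2 with h | ⟨h, h'⟩ | ⟨h, h'⟩
    · exact Or.inl h.symm
    · exact Or.inr (Or.inr ⟨h, h'.symm⟩)
    · exact Or.inr (Or.inl ⟨h, h'.symm⟩)⟩
  loopless := ⟨fun x h => h.1 rfl⟩

/-- One operation on graphs. A pair `(S, G)` stands for the graph with vertex set `S` in which
`x, y ∈ S` are adjacent when they are adjacent in `G`. The operations are the deletion of a vertex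
and the contraction of an edge. -/
inductive Step : Set V × SimpleGraph V → Set V × SimpleGraph V → Prop
  | delete (S : Set V) (G : SimpleGraph V) (v : V) (hv : v ∈ S) : Step (S, G) (S \ {v}, G)
  | contract (S : Set V) (G : SimpleGraph V) (u v : V) (hu : u ∈ S) (hv : v ∈ S)
      (huv : G.Adj u v) : Step (S, G) (S \ {v}, contractEdge G u v)

/-- `H` is an induced minor of `G`: it is isomorphic to a graph obtained from `G` by a sequence of
vertex deletions and edge contractions. -/
def IsInducedMinor (H : SimpleGraph W) (G : SimpleGraph V) : Prop :=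
  ∃ (S : Set V) (G' : SimpleGraph V),
    Relation.ReflTransGen Step (Set.univ, G) (S, G') ∧ Nonempty (H ≃g G'.induce S)

end Pool.Agent.Lib.MP_77ae25_co
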