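import Mathlib
import Pool.Agent.Lib.MP_77ae25_co.Defs

/-!
# The 15-vertex graph

The seven branch sets of the `K_{3,4}` model are
`{0}`, `{1,2,3}`, `{4,5,6,7}` on one side and `{8}`, `{9,10}`, `{11,12}`, `{13,14}` on the other side.
-/

namespace Pool.Agent.Lib.MP_77ae25_co

/-- neighbour lists -/
def nb : Fin 15 → List (Fin 15) := ![
  [8, 9, 10, 11, 12, 13, 14],
  [2, 8, 9],
  [1, 3, 8, 11],
  [2, 11, 13],
  [5, 8, 10],
  [4, 7, 8, 12],
  [7, 12, 14],
  [5, 6, 12],
  [0, 1, 2, 4, 5],
  [0, 1, 10],
  [0, 4, 9],
  [0, 2, 3, 12],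
  [0, 5, 6, 7, 11],
  [0, 3, 14],
  [0, 6, 13]]

/-- The graph on `15` vertices. -/
def G15 : SimpleGraph (Fin 15) where
  Adj x y := y ∈ nb x
  symm := ⟨by decide⟩
  loopless := ⟨by decide⟩

instance : DecidableRel G15.Adj := fun x y => inferInstanceAs (Decidable (y ∈ nb x))

/-- number of neighbours selected by `f` -/
def dg (f : Fin 15 → Bool) (v : Fin 15) : ℕ := ((nb v).map f).count true

/-- the number of `true` entries is `2` or `3` -/
def inRange (l : List Bool) : Bool := (l.count true == 2) || (l.count true == 3)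

/-- degree condition at one vertex -/
def cond (b : Bool) (l : List Bool) : Bool := !b || inRange l

/-- selected vertex of degree three -/
def is3 (f : Fin 15 → Bool) (v : Fin 15) : Bool := f v && (dg f v == 3)

/-- all vertices -/
def vs : List (Fin 15) := [0, 1, 2, 3, 4, 5, 6, 7, 8, 9, 10, 11, 12, 13, 14]

/-- number of selected vertices of degree three -/
def cnt3 (f : Fin 15 → Bool) : ℕ := (vs.filter (is3 f)).length

/-- two non-adjacent vertices of degree three -/
def thetaLike (f : Fin 15 → Bool) : Bool :=
  (cnt3 f == 2) && vs.all (fun v => !(is3 f v) || (nb v).all (fun w => !(is3 f w)))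

/-- six vertices of degree three, each in a triangle of such vertices -/
def prismLike (f : Fin 15 → Bool) : Bool :=
  (cnt3 f == 6) && vs.all (fun v => !(is3 f v) ||
    (nb v).any (fun x => is3 f x && (nb x).any (fun y => is3 f y && (nb y).contains v)))

/-- the three exceptional selections -/
def exc (f : Fin 15 → Bool) : Bool :=
  (vs.map f == vs.map (fun v => [0, 1, 2, 6, 7, 8, 12].contains v.val)) ||
  (vs.map f == vs.map (fun v => [1, 2, 6, 7, 8, 11, 12].contains v.val)) ||
  (vs.map f == vs.map (fun v => [1, 2, 3, 6, 7, 8, 12, 13, 14].contains v.val))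

/-- the condition checked on every selection -/
def leafOK (f : Fin 15 → Bool) : Bool := (!(thetaLike f) || exc f) && !(prismLike f)

/-- both values -/
def allB (p : Bool → Bool) : Bool := p false && p true

theorem allB_spec {p : Bool → Bool} (h : allB p = true) (b : Bool) : p b = true := by
  unfold allB at h
  rw [Bool.and_eq_true] at h
  cases b
  · exact h.1
  · exact h.2

/-- implication -/
def impB (c q : Bool) : Bool := !c || q

theorem impB_spec {c q : Bool} (h : impB c q = true) (hc : c = true) : q = true := by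
  subst hc; simpa [impB] using h

set_option maxRecDepth 100000 in
theorem search : (
    allB fun b9 => 
    allB fun b4 => 
    allB fun b10 => 
    allB fun b0 => impB (cond b10 [b0, b4, b9]) (
    allB fun b1 => impB (cond b9 [b0, b1, b10]) (
    allB fun b5 => 
    allB fun b8 => impB (cond b4 [b5, b8, b10]) (
    allB fun b2 => impB (cond b1 [b2, b8, b9]) (impB (cond b8 [b0, b1, b2, b4, b5]) (
    allB fun b11 => 
    allB fun b3 => impB (cond b2 [b1, b3, b8, b11]) (
    allB fun b13 => impB (cond b3 [b2, b11, b13]) (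
    allB fun b14 => impB (cond b13 [b0, b3, b14]) (
    allB fun b12 => impB (cond b0 [b8, b9, b10, b11, b12, b13, b14]) (impB (cond b11 [b0, b2, b3, b12]) (
    allB fun b7 => impB (cond b5 [b4, b7, b8, b12]) (
    allB fun b6 => impB (cond b6 [b7, b12, b14]) (impB (cond b7 [b5, b6, b12]) (impB (cond b12 [b0, b5, b6, b7, b11]) (impB (cond b14 [b0, b6, b13]) (
      leafOK ![b0, b1, b2, b3, b4, b5, b6, b7, b8, b9, b10, b11, b12, b13, b14])))))))))))))))) = true := by
  decide

theorem search' (f : Fin 15 → Bool) (hf : ∀ v, cond (f v) ((nb v).map f) = true) :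
    leafOK f = true := by
  have c : ∀ v, cond (f v) ((nb v).map f) = true := hf
  have h0 := search
  have h1 := allB_spec h0 (f 9)
  have h2 := allB_spec h1 (f 4)
  have h3 := allB_spec h2 (f 10)
  have h4 := allB_spec h3 (f 0)
  have h5 := impB_spec h4 (c 10)
  have h6 := allB_spec h5 (f 1)
  have h7 := impB_spec h6 (c 9)
  have h8 := allB_spec h7 (f 5)
  have h9 := allB_spec h8 (f 8)
  have h10 := impB_spec h9 (c 4)
  have h11 := allB_spec h10 (f 2)
  have h12 := impB_spec h11 (c 1)
  have h13 := impB_spec h12 (c 8)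
  have h14 := allB_spec h13 (f 11)
  have h15 := allB_spec h14 (f 3)
  have h16 := impB_spec h15 (c 2)
  have h17 := allB_spec h16 (f 13)
  have h18 := impB_spec h17 (c 3)
  have h19 := allB_spec h18 (f 14)
  have h20 := impB_spec h19 (c 13)
  have h21 := allB_spec h20 (f 12)
  have h22 := impB_spec h21 (c 0)
  have h23 := impB_spec h22 (c 11)
  have h24 := allB_spec h23 (f 7)
  have h25 := impB_spec h24 (c 5)
  have h26 := allB_spec h25 (f 6)
  have h27 := impB_spec h26 (c 6)
  have h28 := impB_spec h27 (c 7)
  have h29 := impB_spec h28 (c 12)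
  have h30 := impB_spec h29 (c 14)
  have e : (![f 0, f 1, f 2, f 3, f 4, f 5, f 6, f 7, f 8, f 9, f 10, f 11, f 12, f 13, f 14] :
      Fin 15 → Bool) = f := by
    funext i; fin_cases i <;> rfl
  rw [← e]
  exact h30

end Pool.Agent.Lib.MP_77ae25_co
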