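import Mathlib
import Pool.Agent.Lib.MP_77ae25_co.Defs

namespace Pool.Agent.Lib.MP_77ae25_co

open SimpleGraph

variable {V : Type*} {G : SimpleGraph V}

/-- In a hole every vertex has exactly two neighbours. -/
theorem hole_two {T : Set V} (h : InducesHole G T) {v : V} (hv : v ∈ T) :
    {w | w ∈ T ∧ G.Adj v w}.ncard = 2 := by
  obtain ⟨n, hn, ⟨φ⟩⟩ := h
  obtain ⟨m, rfl⟩ : ∃ m, n = m + 3 := ⟨n - 3, by omega⟩
  have h1 : {w | w ∈ T ∧ G.Adj v w} = (Subtype.val) '' ((G.induce T).neighborSet ⟨v, hv⟩) := by
    ext w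
    constructor
    · rintro ⟨h1, h2⟩
      exact ⟨⟨w, h1⟩, h2, rfl⟩
    · rintro ⟨⟨w', h1⟩, h2, rfl⟩
      exact ⟨h1, h2⟩
  rw [h1, Set.ncard_image_of_injective _ Subtype.val_injective]
  have h2 : φ '' ((G.induce T).neighborSet ⟨v, hv⟩) = (cycleGraph (m + 3)).neighborSet (φ ⟨v, hv⟩) := by
    ext w
    constructor
    · rintro ⟨x, hx, rfl⟩
      exact φ.map_adj_iff.mpr hx
    · intro hw
      refine ⟨φ.symm w, ?_, φ.apply_symm_apply w⟩
      have h3 : (cycleGraph (m + 3)).Adj (φ ⟨v, hv⟩) (φ (φ.symm w)) := by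
        rw [φ.apply_symm_apply]; exact hw
      exact φ.map_adj_iff.mp h3
  rw [← Set.ncard_image_of_injective _ φ.injective, h2, ← Nat.card_coe_set_eq, Nat.card_eq_fintype_card,
    card_neighborSet_eq_degree, cycleGraph_degree_three_le]

/-- In a hole, a neighbour of `v` is one of any two given distinct neighbours of `v`. -/
theorem hole_mem {T : Set V} (h : InducesHole G T) {v u1 u2 w : V} (hv : v ∈ T)
    (h1 : u1 ∈ T) (h1' : G.Adj v u1) (h2 : u2 ∈ T) (h2' : G.Adj v u2) (hne : u1 ≠ u2)
    (hw : w ∈ T) (hw' : G.Adj v w) : w = u1 ∨ w = u2 := by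
  have hc := hole_two h hv
  have hfin : {w | w ∈ T ∧ G.Adj v w}.Finite := by
    apply Set.finite_of_ncard_ne_zero
    rw [hc]; norm_num
  have hsub : ({u1, u2} : Set V) ⊆ {w | w ∈ T ∧ G.Adj v w} := by
    rintro x (rfl | rfl)
    · exact ⟨h1, h1'⟩
    · exact ⟨h2, h2'⟩
  have heq := Set.eq_of_subset_of_ncard_le hsub (by rw [hc, Set.ncard_pair hne]) hfin
  have : w ∈ ({u1, u2} : Set V) := by
    rw [heq]; exact ⟨hw, hw'⟩
  exact this

/-- An interior vertex of a path has two distinct neighbours on the path. -/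
theorem path_interior {a b : V} (P : G.Walk a b) (hP : P.IsPath) {v : V} (hv : v ∈ P.support)
    (ha : v ≠ a) (hb : v ≠ b) :
    ∃ u1 u2, u1 ≠ u2 ∧ u1 ∈ P.support ∧ u2 ∈ P.support ∧ G.Adj v u1 ∧ G.Adj v u2 := by
  obtain ⟨k, hk, hkl⟩ := Walk.mem_support_iff_exists_getVert.mp hv
  have hk0 : k ≠ 0 := by
    rintro rfl
    rw [Walk.getVert_zero] at hk
    exact ha hk.symm
  have hkl' : k < P.length := by
    rcases Nat.lt_or_ge k P.length with h | h
    · exact h
    · exfalso
      have : k = P.length := le_antisymm hkl h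
      rw [this, Walk.getVert_length] at hk
      exact hb hk.symm
  refine ⟨P.getVert (k - 1), P.getVert (k + 1), ?_, Walk.getVert_mem_support _ _,
    Walk.getVert_mem_support _ _, ?_, ?_⟩
  · intro h
    have := hP.getVert_injOn (show k - 1 ≤ P.length by omega) (show k + 1 ≤ P.length by omega) h
    omega
  · have h1 := P.adj_getVert_succ (i := k - 1) (by omega)
    rw [Nat.sub_add_cancel (Nat.one_le_iff_ne_zero.mpr hk0), hk] at h1
    exact h1.symm
  · have h1 := P.adj_getVert_succ hkl'
    rw [hk] at h1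
    exact h1

/-- The data of a theta. -/
structure ThetaData (G : SimpleGraph V) (a b : V) where
  P : Fin 3 → G.Walk a b
  ne : a ≠ b
  nadj : ¬ G.Adj a b
  path : ∀ i, (P i).IsPath
  len : ∀ i, 2 ≤ (P i).length
  disj : ∀ i j, i ≠ j → ∀ v, v ∈ (P i).support → v ∈ (P j).support → v = a ∨ v = b
  hole : ∀ i j, i ≠ j → InducesHole G {v | v ∈ (P i).support ∨ v ∈ (P j).support}
  cover : ∀ v, ∃ i, v ∈ (P i).support

/-- The reversed data. -/
def ThetaData.rev {a b : V} (D : ThetaData G a b) : ThetaData G b a where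
  P := fun i => (D.P i).reverse
  ne := D.ne.symm
  nadj := fun h => D.nadj h.symm
  path := fun i => (D.path i).reverse
  len := fun i => by rw [Walk.length_reverse]; exact D.len i
  disj := fun i j hij v h1 h2 => by
    rw [Walk.support_reverse, List.mem_reverse] at h1 h2
    exact (D.disj i j hij v h1 h2).symm
  hole := fun i j hij => by
    have := D.hole i j hij
    simpa only [Walk.support_reverse, List.mem_reverse] using this
  cover := fun v => by
    obtain ⟨i, hi⟩ := D.cover v
    exact ⟨i, by rw [Walk.support_reverse, List.mem_reverse]; exact hi⟩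

theorem third (i : Fin 3) : ∃ j : Fin 3, i ≠ j := by
  fin_cases i
  · exact ⟨1, by decide⟩
  · exact ⟨0, by decide⟩
  · exact ⟨0, by decide⟩

/-- interior vertices of a theta have degree two -/
theorem ThetaData.deg_two {a b : V} (D : ThetaData G a b) {v : V} (ha : v ≠ a) (hb : v ≠ b) :
    {w | G.Adj v w}.ncard = 2 := by
  obtain ⟨i, hi⟩ := D.cover v
  obtain ⟨u1, u2, hne, h1, h2, h1', h2'⟩ := path_interior (D.P i) (D.path i) hi ha hb
  have : {w | G.Adj v w} = {u1, u2} := by
    ext w
    constructor
    · intro hw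
      obtain ⟨j, hj⟩ := D.cover w
      by_cases hij : i = j
      · subst hij
        obtain ⟨j', hj'⟩ := third i
        exact hole_mem (D.hole i j' hj') (Or.inl hi) (Or.inl h1) h1' (Or.inl h2) h2' hne (Or.inl hj) hw
      · exact hole_mem (D.hole i j hij) (Or.inl hi) (Or.inl h1) h1' (Or.inl h2) h2' hne (Or.inr hj) hw
    · rintro (rfl | rfl)
      · exact h1'
      · exact h2'
  rw [this, Set.ncard_pair hne]

/-- the ends of a theta have degree three -/
theorem ThetaData.deg_three {a b : V} (D : ThetaData G a b) : {w | G.Adj a w}.ncard = 3 := by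
  have hadj : ∀ i, G.Adj a ((D.P i).getVert 1) := by
    intro i
    have := (D.P i).adj_getVert_succ (i := 0) (by have := D.len i; omega)
    rwa [Walk.getVert_zero] at this
  have hmem : ∀ i, (D.P i).getVert 1 ∈ (D.P i).support := fun i => Walk.getVert_mem_support _ _
  have hnb : ∀ i, (D.P i).getVert 1 ≠ b := by
    intro i h
    have h2 : (D.P i).getVert 1 = (D.P i).getVert (D.P i).length := by rw [h, Walk.getVert_length]
    have := (D.path i).getVert_injOn (show 1 ≤ (D.P i).length by have := D.len i; omega)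
      (show (D.P i).length ≤ (D.P i).length from le_refl _) h2
    have := D.len i
    omega
  have hne : ∀ i j, i ≠ j → (D.P i).getVert 1 ≠ (D.P j).getVert 1 := by
    intro i j hij h
    rcases D.disj i j hij _ (hmem i) (h ▸ hmem j) with h1 | h1
    · exact (hadj i).ne h1.symm
    · exact hnb i h1
  have ha : ∀ i, a ∈ (D.P i).support := fun i => Walk.start_mem_support _
  have : {w | G.Adj a w} = {(D.P 0).getVert 1, (D.P 1).getVert 1, (D.P 2).getVert 1} := by
    ext w
    constructor
    · intro hw
      obtain ⟨j, hj⟩ := D.cover w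
      obtain ⟨i, hi⟩ := third j
      rcases hole_mem (D.hole j i hi) (Or.inl (ha j)) (Or.inl (hmem j)) (hadj j) (Or.inr (hmem i))
        (hadj i) (hne j i hi) (Or.inl hj) hw with h | h
      · fin_cases j <;> simp_all
      · fin_cases i <;> simp_all
    · rintro (rfl | rfl | rfl)
      · exact hadj 0
      · exact hadj 1
      · exact hadj 2
  rw [this]
  rw [Set.ncard_eq_three]
  exact ⟨_, _, _, hne 0 1 (by decide), hne 0 2 (by decide), hne 1 2 (by decide), rfl⟩

/-- A set of vertices of a theta avoiding the ends and closed under adjacency away from `a` is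
empty. -/
theorem ThetaData.closed {a b : V} (D : ThetaData G a b) (K : Set V) (hb : b ∉ K)
    (hK : ∀ x ∈ K, ∀ y, G.Adj x y → y ∈ K ∨ y = a) : ∀ x, x ∉ K := by
  intro x hx
  obtain ⟨i, hi⟩ := D.cover x
  obtain ⟨k, hk, hkl⟩ := Walk.mem_support_iff_exists_getVert.mp hi
  have key : ∀ m, k + m ≤ (D.P i).length → (D.P i).getVert (k + m) ∈ K := by
    intro m
    induction m with
    | zero => intro _; rw [add_zero, hk]; exact hx
    | succ m ih =>
      intro hm
      have h1 := ih (by omega)
      have h2 := (D.P i).adj_getVert_succ (i := k + m) (by omega)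
      rcases hK _ h1 _ h2 with h3 | h3
      · exact h3
      · exfalso
        have h4 : (D.P i).getVert (k + m + 1) = (D.P i).getVert 0 := by rw [h3, Walk.getVert_zero]
        have := (D.path i).getVert_injOn (show k + m + 1 ≤ (D.P i).length by omega)
          (show 0 ≤ (D.P i).length by omega) h4
        omega
  have := key ((D.P i).length - k) (by omega)
  rw [Nat.add_sub_cancel' hkl, Walk.getVert_length] at this
  exact hb this

/-- The data of a prism. -/
structure PrismData (G : SimpleGraph V) (a b : Fin 3 → V) where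
  P : ∀ i, G.Walk (a i) (b i)
  ta : ∀ i j, i ≠ j → G.Adj (a i) (a j)
  tb : ∀ i j, i ≠ j → G.Adj (b i) (b j)
  ne : ∀ i j, a i ≠ b j
  path : ∀ i, (P i).IsPath
  disj : ∀ i j, i ≠ j → ∀ v, v ∈ (P i).support → v ∉ (P j).support
  hole : ∀ i j, i ≠ j → InducesHole G {v | v ∈ (P i).support ∨ v ∈ (P j).support}
  cover : ∀ v, ∃ i, v ∈ (P i).support

/-- The reversed data. -/
def PrismData.rev {a b : Fin 3 → V} (D : PrismData G a b) : PrismData G b a where
  P := fun i => (D.P i).reverse
  ta := D.tb
  tb := D.ta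
  ne := fun i j => (D.ne j i).symm
  path := fun i => (D.path i).reverse
  disj := fun i j hij v h1 h2 => by
    rw [Walk.support_reverse, List.mem_reverse] at h1 h2
    exact D.disj i j hij v h1 h2
  hole := fun i j hij => by
    have := D.hole i j hij
    simpa only [Walk.support_reverse, List.mem_reverse] using this
  cover := fun v => by
    obtain ⟨i, hi⟩ := D.cover v
    exact ⟨i, by rw [Walk.support_reverse, List.mem_reverse]; exact hi⟩

theorem PrismData.deg_two {a b : Fin 3 → V} (D : PrismData G a b) {v : V} (ha : ∀ i, v ≠ a i)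
    (hb : ∀ i, v ≠ b i) : {w | G.Adj v w}.ncard = 2 := by
  obtain ⟨i, hi⟩ := D.cover v
  obtain ⟨u1, u2, hne, h1, h2, h1', h2'⟩ := path_interior (D.P i) (D.path i) hi (ha i) (hb i)
  have : {w | G.Adj v w} = {u1, u2} := by
    ext w
    constructor
    · intro hw
      obtain ⟨j, hj⟩ := D.cover w
      by_cases hij : i = j
      · subst hij
        obtain ⟨j', hj'⟩ := third i
        exact hole_mem (D.hole i j' hj') (Or.inl hi) (Or.inl h1) h1' (Or.inl h2) h2' hne (Or.inl hj) hw
      · exact hole_mem (D.hole i j hij) (Or.inl hi) (Or.inl h1) h1' (Or.inl h2) h2' hne (Or.inr hj) hw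
    · rintro (rfl | rfl)
      · exact h1'
      · exact h2'
  rw [this, Set.ncard_pair hne]

theorem three_cases (i : Fin 3) : ∃ j k : Fin 3, i ≠ j ∧ i ≠ k ∧ j ≠ k ∧ ∀ l, l = i ∨ l = j ∨ l = k := by
  fin_cases i
  · exact ⟨1, 2, by decide, by decide, by decide, by decide⟩
  · exact ⟨0, 2, by decide, by decide, by decide, by decide⟩
  · exact ⟨0, 1, by decide, by decide, by decide, by decide⟩

theorem PrismData.deg_three {a b : Fin 3 → V} (D : PrismData G a b) (i : Fin 3) :
    {w | G.Adj (a i) w}.ncard = 3 := by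
  obtain ⟨j, k, hij, hik, hjk, hall⟩ := three_cases i
  have hlen : ∀ i, 0 < (D.P i).length := by
    intro i
    rcases Nat.eq_zero_or_pos (D.P i).length with h | h
    · exact absurd (Walk.eq_of_length_eq_zero h) (D.ne i i)
    · exact h
  have ha : ∀ i, a i ∈ (D.P i).support := fun i => Walk.start_mem_support _
  have hadj : G.Adj (a i) ((D.P i).getVert 1) := by
    have := (D.P i).adj_getVert_succ (hlen i)
    rwa [Walk.getVert_zero] at this
  have hmem : (D.P i).getVert 1 ∈ (D.P i).support := Walk.getVert_mem_support _ _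
  have hnj : (D.P i).getVert 1 ≠ a j := fun h => D.disj i j hij _ hmem (by rw [h]; exact ha j)
  have hnk : (D.P i).getVert 1 ≠ a k := fun h => D.disj i k hik _ hmem (by rw [h]; exact ha k)
  have : {w | G.Adj (a i) w} = {(D.P i).getVert 1, a j, a k} := by
    ext w
    constructor
    · intro hw
      obtain ⟨l, hl⟩ := D.cover w
      rcases hall l with rfl | rfl | rfl
      · rcases hole_mem (D.hole l j hij) (Or.inl (ha l)) (Or.inl hmem) hadj (Or.inr (ha j))
          (D.ta l j hij) hnj (Or.inl hl) hw with h | h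
        · exact Or.inl h
        · exact Or.inr (Or.inl h)
      · rcases hole_mem (D.hole i l hij) (Or.inl (ha i)) (Or.inl hmem) hadj (Or.inr (ha l))
          (D.ta i l hij) hnj (Or.inr hl) hw with h | h
        · exact Or.inl h
        · exact Or.inr (Or.inl h)
      · rcases hole_mem (D.hole i l hik) (Or.inl (ha i)) (Or.inl hmem) hadj (Or.inr (ha l))
          (D.ta i l hik) hnk (Or.inr hl) hw with h | h
        · exact Or.inl h
        · exact Or.inr (Or.inr h)
    · rintro (rfl | rfl | rfl)
      · exact hadj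
      · exact D.ta i j hij
      · exact D.ta i k hik
  rw [this, Set.ncard_eq_three]
  exact ⟨_, _, _, hnj, hnk, (D.ta j k hjk).ne, rfl⟩

/-- A prism has exactly six vertices of degree three. -/
theorem PrismData.six {a b : Fin 3 → V} (D : PrismData G a b) :
    {v | {w | G.Adj v w}.ncard = 3}.ncard = 6 := by
  have h1 : {v | {w | G.Adj v w}.ncard = 3} = (Sum.elim a b) '' Set.univ := by
    ext v
    constructor
    · intro hv
      by_contra hcon
      have h2 := D.deg_two (v := v) (fun i h => hcon ⟨Sum.inl i, trivial, h.symm⟩)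
        (fun i h => hcon ⟨Sum.inr i, trivial, h.symm⟩)
      have h3 : {w | G.Adj v w}.ncard = 3 := hv
      omega
    · rintro ⟨i | i, _, rfl⟩
      · exact D.deg_three i
      · exact D.rev.deg_three i
  have hinj : Function.Injective (Sum.elim a b) := by
    rintro (i | i) (j | j) h
    · by_contra hne
      exact (D.ta i j (fun h' => hne (by rw [h']))).ne h
    · exact absurd h (D.ne i j)
    · exact absurd h (D.ne j i).symm
    · by_contra hne
      exact (D.tb i j (fun h' => hne (by rw [h']))).ne h
  rw [h1, Set.ncard_image_of_injective _ hinj, Set.ncard_univ, Nat.card_eq_fintype_card]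
  rfl

/-- Every vertex of degree three of a prism lies in a triangle of such vertices. -/
theorem PrismData.tri {a b : Fin 3 → V} (D : PrismData G a b) {v : V}
    (hv : {w | G.Adj v w}.ncard = 3) :
    ∃ x y, G.Adj v x ∧ G.Adj v y ∧ G.Adj x y ∧ {w | G.Adj x w}.ncard = 3 ∧
      {w | G.Adj y w}.ncard = 3 := by
  by_cases h1 : ∃ i, v = a i
  · obtain ⟨i, rfl⟩ := h1
    obtain ⟨j, k, hij, hik, hjk, _⟩ := three_cases i
    exact ⟨a j, a k, D.ta i j hij, D.ta i k hik, D.ta j k hjk, D.deg_three j, D.deg_three k⟩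
  · by_cases h2 : ∃ i, v = b i
    · obtain ⟨i, rfl⟩ := h2
      obtain ⟨j, k, hij, hik, hjk, _⟩ := three_cases i
      exact ⟨b j, b k, D.tb i j hij, D.tb i k hik, D.tb j k hjk, D.rev.deg_three j, D.rev.deg_three k⟩
    · have := D.deg_two (v := v) (fun i h => h1 ⟨i, h⟩) (fun i h => h2 ⟨i, h⟩)
      omega

end Pool.Agent.Lib.MP_77ae25_co
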