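import Mathlib
import Pool.Agent.Lib.MP_77ae25_co.Defs
import Pool.Agent.Lib.MP_77ae25_co.Lemmas
import Pool.Agent.Lib.MP_77ae25_co.Graph

namespace Pool.Agent.Lib.MP_77ae25_co

open SimpleGraph Classical

/-- the indicator function of `S` -/
noncomputable def ind (S : Set (Fin 15)) : Fin 15 → Bool := fun i => decide (i ∈ S)

theorem ind_iff (S : Set (Fin 15)) (i : Fin 15) : ind S i = true ↔ i ∈ S := by
  unfold ind; exact decide_eq_true_iff

theorem nb_nodup : ∀ v, (nb v).Nodup := by decide

theorem deg_eq (S : Set (Fin 15)) (v : S) :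
    {w : S | (G15.induce S).Adj v w}.ncard = dg (ind S) v.val := by
  have h1 : Subtype.val '' {w : S | (G15.induce S).Adj v w}
      = (((nb v.val).filter (fun w => ind S w)).toFinset : Set (Fin 15)) := by
    ext w
    simp only [List.coe_toFinset, List.mem_filter]
    constructor
    · rintro ⟨⟨w', hw'⟩, h, rfl⟩
      exact ⟨h, (ind_iff S _).mpr hw'⟩
    · rintro ⟨h1, h2⟩
      exact ⟨⟨w, (ind_iff S w).mp h2⟩, h1, rfl⟩
  rw [← Set.ncard_image_of_injective _ Subtype.val_injective, h1, Set.ncard_coe_finset,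
    List.toFinset_card_of_nodup ((nb_nodup _).filter _)]
  unfold dg
  rw [List.count, List.countP_map, List.countP_eq_length_filter]
  congr 1
  apply List.filter_congr
  intro x _
  simp

theorem is3_iff (S : Set (Fin 15)) (v : Fin 15) :
    is3 (ind S) v = true ↔ ∃ h : v ∈ S, {w : S | (G15.induce S).Adj ⟨v, h⟩ w}.ncard = 3 := by
  unfold is3
  rw [Bool.and_eq_true, beq_iff_eq, ind_iff]
  constructor
  · rintro ⟨h1, h2⟩
    exact ⟨h1, by rw [deg_eq S ⟨v, h1⟩]; exact h2⟩
  · rintro ⟨h1, h2⟩
    exact ⟨h1, by rw [deg_eq S ⟨v, h1⟩] at h2; exact h2⟩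

theorem vs_nodup : vs.Nodup := by decide

theorem vs_complete : ∀ v, v ∈ vs := by decide

theorem cnt3_eq (S : Set (Fin 15)) :
    {v : S | {w : S | (G15.induce S).Adj v w}.ncard = 3}.ncard = cnt3 (ind S) := by
  have h1 : Subtype.val '' {v : S | {w : S | (G15.induce S).Adj v w}.ncard = 3}
      = ((vs.filter (is3 (ind S))).toFinset : Set (Fin 15)) := by
    ext v
    simp only [List.coe_toFinset, List.mem_filter]
    constructor
    · rintro ⟨⟨v', hv'⟩, h, rfl⟩
      exact ⟨vs_complete _, (is3_iff S _).mpr ⟨hv', h⟩⟩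
    · rintro ⟨_, h2⟩
      obtain ⟨h3, h4⟩ := (is3_iff S v).mp h2
      exact ⟨⟨v, h3⟩, h4, rfl⟩
  rw [← Set.ncard_image_of_injective _ Subtype.val_injective, h1, Set.ncard_coe_finset,
    List.toFinset_card_of_nodup (vs_nodup.filter _)]
  rfl

theorem cond_of (S : Set (Fin 15))
    (h : ∀ v : S, {w : S | (G15.induce S).Adj v w}.ncard = 2 ∨
      {w : S | (G15.induce S).Adj v w}.ncard = 3) :
    ∀ v, cond (ind S v) ((nb v).map (ind S)) = true := by
  intro v
  unfold cond
  by_cases hv : v ∈ S
  · have h1 := h ⟨v, hv⟩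
    rw [deg_eq S ⟨v, hv⟩] at h1
    unfold dg at h1
    unfold inRange
    rcases h1 with h1 | h1
    · simp only at h1; rw [h1]; simp
    · simp only at h1; rw [h1]; simp
  · have : ind S v = false := by
      rw [← Bool.not_eq_true, ind_iff]; exact hv
    rw [this]; rfl

theorem exc_case (S : Set (Fin 15)) {a b : S} (D : ThetaData (G15.induce S) a b)
    (K : List (Fin 15)) (x0 : Fin 15) (hx0 : x0 ∈ K) (hx0S : ind S x0 = true) (hb : b.val ∉ K)
    (hK : ∀ x ∈ K, ∀ y ∈ nb x, ind S y = true → y ∈ K ∨ y = a.val) : False := by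
  refine D.closed {x : S | x.val ∈ K} hb ?_ ⟨x0, (ind_iff S x0).mp hx0S⟩ hx0
  intro x hx y hxy
  rcases hK x.val hx y.val hxy ((ind_iff S _).mpr y.2) with h | h
  · exact Or.inl h
  · exact Or.inr (Subtype.ext h)

theorem ends {S : Set (Fin 15)} {a b : S} (D : ThetaData (G15.induce S) a b) :
    is3 (ind S) a.val = true ∧ is3 (ind S) b.val = true :=
  ⟨(is3_iff S _).mpr ⟨a.2, D.deg_three⟩, (is3_iff S _).mpr ⟨b.2, D.rev.deg_three⟩⟩

theorem no_theta (S : Set (Fin 15)) {a b : S} (D : ThetaData (G15.induce S) a b) : False := by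
  have hdeg : ∀ v : S, {w : S | (G15.induce S).Adj v w}.ncard = 2 ∨
      {w : S | (G15.induce S).Adj v w}.ncard = 3 := by
    intro v
    by_cases ha : v = a
    · right; rw [ha]; exact D.deg_three
    · by_cases hb : v = b
      · right; rw [hb]; exact D.rev.deg_three
      · left; exact D.deg_two ha hb
  have hleaf := search' (ind S) (cond_of S hdeg)
  have hset : {v : S | {w : S | (G15.induce S).Adj v w}.ncard = 3} = {a, b} := by
    ext v
    constructor
    · intro hv
      by_contra hcon
      have h1 : v ≠ a := fun h => hcon (Or.inl h)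
      have h2 : v ≠ b := fun h => hcon (Or.inr h)
      have h3 := D.deg_two h1 h2
      have h4 : {w : S | (G15.induce S).Adj v w}.ncard = 3 := hv
      omega
    · rintro (rfl | rfl)
      · exact D.deg_three
      · exact D.rev.deg_three
  have hcnt : cnt3 (ind S) = 2 := by
    rw [← cnt3_eq, hset, Set.ncard_pair D.ne]
  have hab : ∀ v, is3 (ind S) v = true → v = a.val ∨ v = b.val := by
    intro v hv
    obtain ⟨h1, h2⟩ := (is3_iff S v).mp hv
    have h3 : (⟨v, h1⟩ : S) ∈ ({a, b} : Set S) := by rw [← hset]; exact h2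
    rcases h3 with h | h
    · left; rw [← h]
    · right
      have h' : (⟨v, h1⟩ : S) = b := h
      rw [← h']
  have hnadj : ∀ v w, is3 (ind S) v = true → is3 (ind S) w = true → w ∉ nb v := by
    intro v w hv hw hvw
    have hadj : G15.Adj v w := hvw
    rcases hab v hv with h1 | h1 <;> rcases hab w hw with h2 | h2
    · rw [h1, h2] at hadj; exact G15.loopless.irrefl _ hadj
    · rw [h1, h2] at hadj; exact D.nadj hadj
    · rw [h1, h2] at hadj; exact D.nadj hadj.symm
    · rw [h1, h2] at hadj; exact G15.loopless.irrefl _ hadj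
  have htl : thetaLike (ind S) = true := by
    unfold thetaLike
    rw [Bool.and_eq_true, beq_iff_eq]
    refine ⟨hcnt, ?_⟩
    rw [List.all_eq_true]
    intro v _
    by_cases hv : is3 (ind S) v = true
    · rw [hv]
      simp only [Bool.not_true, Bool.false_or]
      rw [List.all_eq_true]
      intro w hw
      by_contra hcon
      have : is3 (ind S) w = true := by simpa using hcon
      exact hnadj v w hv this hw
    · simp [hv]
  unfold leafOK at hleaf
  rw [Bool.and_eq_true, htl] at hleaf
  have hexc : exc (ind S) = true := by simpa using hleaf.1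
  obtain ⟨ha3, hb3⟩ := ends D
  have hne : a.val ≠ b.val := fun h => D.ne (Subtype.ext h)
  have hfun : ∀ E : Fin 15 → Bool, vs.map (ind S) = vs.map E → ind S = E := by
    intro E hE
    funext i
    exact List.map_inj_left.mp hE i (vs_complete i)
  unfold exc at hexc
  rw [Bool.or_eq_true, Bool.or_eq_true, beq_iff_eq, beq_iff_eq, beq_iff_eq] at hexc
  rcases hexc with (h | h) | h
  · have hE := hfun _ h
    rw [hE] at ha3 hb3
    have key : ∀ v : Fin 15, is3 (fun v => [0, 1, 2, 6, 7, 8, 12].contains v.val) v = true →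
        v = 8 ∨ v = 12 := by decide
    rcases key _ ha3 with h1 | h1 <;> rcases key _ hb3 with h2 | h2
    · exact hne (h1.trans h2.symm)
    · exact exc_case S D [1, 2] 1 (by decide) (by rw [hE]; decide) (by rw [h2]; decide)
        (by rw [hE, h1]; decide)
    · exact exc_case S D [6, 7] 6 (by decide) (by rw [hE]; decide) (by rw [h2]; decide)
        (by rw [hE, h1]; decide)
    · exact hne (h1.trans h2.symm)
  · have hE := hfun _ h
    rw [hE] at ha3 hb3
    have key : ∀ v : Fin 15, is3 (fun v => [1, 2, 6, 7, 8, 11, 12].contains v.val) v = true →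
        v = 2 ∨ v = 12 := by decide
    rcases key _ ha3 with h1 | h1 <;> rcases key _ hb3 with h2 | h2
    · exact hne (h1.trans h2.symm)
    · exact exc_case S D [1, 8] 1 (by decide) (by rw [hE]; decide) (by rw [h2]; decide)
        (by rw [hE, h1]; decide)
    · exact exc_case S D [6, 7] 6 (by decide) (by rw [hE]; decide) (by rw [h2]; decide)
        (by rw [hE, h1]; decide)
    · exact hne (h1.trans h2.symm)
  · have hE := hfun _ h
    rw [hE] at ha3 hb3
    have key : ∀ v : Fin 15, is3 (fun v => [1, 2, 3, 6, 7, 8, 12, 13, 14].contains v.val) v = true →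
        v = 2 ∨ v = 6 := by decide
    rcases key _ ha3 with h1 | h1 <;> rcases key _ hb3 with h2 | h2
    · exact hne (h1.trans h2.symm)
    · exact exc_case S D [1, 8] 1 (by decide) (by rw [hE]; decide) (by rw [h2]; decide)
        (by rw [hE, h1]; decide)
    · exact exc_case S D [7, 12] 7 (by decide) (by rw [hE]; decide) (by rw [h2]; decide)
        (by rw [hE, h1]; decide)
    · exact hne (h1.trans h2.symm)

theorem no_prism (S : Set (Fin 15)) {a b : Fin 3 → S} (D : PrismData (G15.induce S) a b) :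
    False := by
  have hdeg : ∀ v : S, {w : S | (G15.induce S).Adj v w}.ncard = 2 ∨
      {w : S | (G15.induce S).Adj v w}.ncard = 3 := by
    intro v
    by_cases ha : ∃ i, v = a i
    · obtain ⟨i, rfl⟩ := ha
      right; exact D.deg_three i
    · by_cases hb : ∃ i, v = b i
      · obtain ⟨i, rfl⟩ := hb
        right; exact D.rev.deg_three i
      · left; exact D.deg_two (fun i h => ha ⟨i, h⟩) (fun i h => hb ⟨i, h⟩)
  have hleaf := search' (ind S) (cond_of S hdeg)
  have hcnt : cnt3 (ind S) = 6 := by rw [← cnt3_eq]; exact D.six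
  have hpl : prismLike (ind S) = true := by
    unfold prismLike
    rw [Bool.and_eq_true, beq_iff_eq]
    refine ⟨hcnt, ?_⟩
    rw [List.all_eq_true]
    intro v _
    by_cases hv : is3 (ind S) v = true
    · rw [hv]
      simp only [Bool.not_true, Bool.false_or]
      obtain ⟨h1, h2⟩ := (is3_iff S v).mp hv
      obtain ⟨x, y, hvx, hvy, hxy, hx3, hy3⟩ := D.tri h2
      rw [List.any_eq_true]
      refine ⟨x.val, hvx, ?_⟩
      rw [Bool.and_eq_true]
      refine ⟨(is3_iff S _).mpr ⟨x.2, hx3⟩, ?_⟩
      rw [List.any_eq_true]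
      refine ⟨y.val, hxy, ?_⟩
      rw [Bool.and_eq_true]
      refine ⟨(is3_iff S _).mpr ⟨y.2, hy3⟩, ?_⟩
      rw [List.contains_iff_mem]
      exact hvy.symm
    · simp [hv]
  unfold leafOK at hleaf
  rw [Bool.and_eq_true, hpl] at hleaf
  exact absurd hleaf.2 (by decide)

theorem free : ThetaPrismFree G15 := by
  intro S
  refine ⟨?_, ?_⟩
  · rintro ⟨a, b, P, h1, h2, h3, h4, h5, h6⟩
    exact no_theta S ⟨P, h1, h2, fun i => (h3 i).1, fun i => (h3 i).2, h4, h5, h6⟩
  · rintro ⟨a, b, P, h1, h2, h3, h4, h5, h6, h7⟩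
    exact no_prism S ⟨P, h1, h2, h3, h4, h5, h6, h7⟩

end Pool.Agent.Lib.MP_77ae25_co
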