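import Mathlib
import Pool.Agent.Lib.MP_77ae25_co.Defs
import Pool.Agent.Lib.MP_77ae25_co.Graph

namespace Pool.Agent.Lib.MP_77ae25_co

open SimpleGraph

instance {V : Type*} [DecidableEq V] (G : SimpleGraph V) [DecidableRel G.Adj] (u v : V) :
    DecidableRel (contractEdge G u v).Adj :=
  fun x y => inferInstanceAs (Decidable (x ≠ y ∧ (G.Adj x y ∨ (x = u ∧ G.Adj v y) ∨ (y = u ∧ G.Adj x v))))

/-- after 1 contraction(s) -/
def G15c1 : SimpleGraph (Fin 15) := contractEdge G15 1 2

instance : DecidableRel G15c1.Adj := inferInstanceAs (DecidableRel (contractEdge G15 1 2).Adj)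

/-- after 2 contraction(s) -/
def G15c2 : SimpleGraph (Fin 15) := contractEdge G15c1 1 3

instance : DecidableRel G15c2.Adj := inferInstanceAs (DecidableRel (contractEdge G15c1 1 3).Adj)

/-- after 3 contraction(s) -/
def G15c3 : SimpleGraph (Fin 15) := contractEdge G15c2 4 5

instance : DecidableRel G15c3.Adj := inferInstanceAs (DecidableRel (contractEdge G15c2 4 5).Adj)

/-- after 4 contraction(s) -/
def G15c4 : SimpleGraph (Fin 15) := contractEdge G15c3 4 7

instance : DecidableRel G15c4.Adj := inferInstanceAs (DecidableRel (contractEdge G15c3 4 7).Adj)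

/-- after 5 contraction(s) -/
def G15c5 : SimpleGraph (Fin 15) := contractEdge G15c4 4 6

instance : DecidableRel G15c5.Adj := inferInstanceAs (DecidableRel (contractEdge G15c4 4 6).Adj)

/-- after 6 contraction(s) -/
def G15c6 : SimpleGraph (Fin 15) := contractEdge G15c5 9 10

instance : DecidableRel G15c6.Adj := inferInstanceAs (DecidableRel (contractEdge G15c5 9 10).Adj)

/-- after 7 contraction(s) -/
def G15c7 : SimpleGraph (Fin 15) := contractEdge G15c6 11 12

instance : DecidableRel G15c7.Adj := inferInstanceAs (DecidableRel (contractEdge G15c6 11 12).Adj)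

/-- after 8 contraction(s) -/
def G15c8 : SimpleGraph (Fin 15) := contractEdge G15c7 13 14

instance : DecidableRel G15c8.Adj := inferInstanceAs (DecidableRel (contractEdge G15c7 13 14).Adj)

/-- the seven remaining vertices -/
def fin7 : Fin 3 ⊕ Fin 4 → Fin 15 := Sum.elim ![0, 1, 4] ![8, 9, 11, 13]

/-- the remaining vertex set -/
def Send : Set (Fin 15) :=
  (((((((Set.univ \ {2}) \ {3}) \ {5}) \ {7}) \ {6}) \ {10}) \ {12}) \ {14}

theorem fin7_mem : ∀ x, fin7 x ∈ Send := by
  intro x
  unfold Send
  simp only [Set.mem_sdiff, Set.mem_univ, true_and, Set.mem_singleton_iff]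
  revert x
  decide

theorem fin7_inj : Function.Injective fin7 := by decide

theorem fin7_surj : ∀ v ∈ Send, ∃ x, fin7 x = v := by
  intro v
  unfold Send
  simp only [Set.mem_sdiff, Set.mem_univ, true_and, Set.mem_singleton_iff]
  revert v
  decide

theorem fin7_adj : ∀ x y, G15c8.Adj (fin7 x) (fin7 y) ↔
    (x.isLeft = true ∧ y.isRight = true ∨ x.isRight = true ∧ y.isLeft = true) := by
  decide

theorem minor : IsInducedMinor (completeBipartiteGraph (Fin 3) (Fin 4)) G15 := by
  refine ⟨Send, G15c8, ?_, ?_⟩
  · refine Relation.ReflTransGen.head (Step.contract _ G15 1 2 ?_ ?_ ?_) ?_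
    · simp
    · simp
    · decide
    change Relation.ReflTransGen Step (_, G15c1) _
    refine Relation.ReflTransGen.head (Step.contract _ G15c1 1 3 ?_ ?_ ?_) ?_
    · simp
    · simp
    · decide
    change Relation.ReflTransGen Step (_, G15c2) _
    refine Relation.ReflTransGen.head (Step.contract _ G15c2 4 5 ?_ ?_ ?_) ?_
    · simp
    · simp
    · decide
    change Relation.ReflTransGen Step (_, G15c3) _
    refine Relation.ReflTransGen.head (Step.contract _ G15c3 4 7 ?_ ?_ ?_) ?_
    · simp
    · simp
    · decide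
    change Relation.ReflTransGen Step (_, G15c4) _
    refine Relation.ReflTransGen.head (Step.contract _ G15c4 4 6 ?_ ?_ ?_) ?_
    · simp
    · simp
    · decide
    change Relation.ReflTransGen Step (_, G15c5) _
    refine Relation.ReflTransGen.head (Step.contract _ G15c5 9 10 ?_ ?_ ?_) ?_
    · simp
    · simp
    · decide
    change Relation.ReflTransGen Step (_, G15c6) _
    refine Relation.ReflTransGen.head (Step.contract _ G15c6 11 12 ?_ ?_ ?_) ?_
    · simp
    · simp
    · decide
    change Relation.ReflTransGen Step (_, G15c7) _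
    refine Relation.ReflTransGen.head (Step.contract _ G15c7 13 14 ?_ ?_ ?_) ?_
    · simp
    · simp
    · decide
    change Relation.ReflTransGen Step (_, G15c8) _
    exact Relation.ReflTransGen.refl
  · let e : Fin 3 ⊕ Fin 4 ≃ Send := Equiv.ofBijective (fun x => ⟨fin7 x, fin7_mem x⟩) (by
      constructor
      · intro x y h
        exact fin7_inj (congrArg Subtype.val h)
      · rintro ⟨v, hv⟩
        obtain ⟨x, hx⟩ := fin7_surj v hv
        exact ⟨x, Subtype.ext hx⟩)
    refine ⟨⟨e, ?_⟩⟩
    intro x y
    exact fin7_adj x y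

end Pool.Agent.Lib.MP_77ae25_co
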